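import Pool.Agent.H5.WangShi

set_option autoImplicit false

namespace Pool.Agent.Results.MP_e74ad6_co.Bound

open Pool.Agent.H5.WangShiDefs

theorem result (d : ℕ) (p : ℝ × ℝ) (hx : 0 < p.1) (hy : 0 < p.2) (hz : p.1 + p.2 < d) :
    {L ∈ lines d | p ∈ L}.ncard ≤ d + 1 :=
  H5.WangShi.main d p hx hy hz

end Pool.Agent.Results.MP_e74ad6_co.Bound
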